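import Mathlib
import Pool.Agent.W914.SA.Setting
import Pool.Agent.W914.SA.Zfc

/-!
# MP_5db220_lc: real and Aronszajn strongly surjective linear orders can coexist

The first part says that a principle about a family of sequences of rationals and a linear order
is forced by a notion of forcing `P` (which exists outright). `P` consists of finite conditions: it
adds a sequence of rationals for each element of `ω₁ × ℕ`, a generic Aronszajn line on `ω₁ × ℕ`,
and at each coordinate `α < 2^ℵ₁` monotone maps of the family and of the line onto the subset
given by the name which a bookkeeping function hands over at `α`. See `Pool.Agent.W914.SA.Defs`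
for the principle (`Principle` is the statement about actual objects, `ForcedPrinciple` the same
statement in the forcing language) and `Pool.Agent.Helper669.Forcing` for the forcing language.

The second part is a theorem about actual objects: whenever the principle holds, there are an
uncountable strongly surjective set of reals and a strongly surjective Aronszajn line.
-/

set_option autoImplicit false

namespace Pool.Agent.Results.MP_5db220_lc.Coexistence

open Pool.Agent.W914.SA
open Pool.Agent.W914.SS (StronglySurjective)

/-- (1) There is a notion of forcing `P` all of whose conditions force the principle for some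
nonempty well-ordered set `Ω` with countable initial segments.
(2) If the principle holds for such an `Ω`, then there are an uncountable strongly surjective set
`L` of reals and a strongly surjective Aronszajn line `A`. -/
theorem result :
    (∃ (P : Type) (_ : Preorder P) (Ω : Type) (_ : LinearOrder Ω) (_ : WellFoundedLT Ω),
      Nonempty P ∧ Nonempty Ω ∧ (∀ b : Ω, (Set.Iio b).Countable) ∧
        ∀ p : P, p ∈ ForcedPrinciple P Ω) ∧
    (∀ (Ω : Type) [LinearOrder Ω] [WellFoundedLT Ω] [Nonempty Ω] (r : Ω × ℕ → ℕ → ℚ)
      (lt : Ω × ℕ → Ω × ℕ → Prop), (∀ b : Ω, (Set.Iio b).Countable) → Principle Ω r lt →
        (∃ L : Set ℝ, Uncountable L ∧ StronglySurjective L) ∧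
          ∃ (A : Type) (_ : LinearOrder A), IsAronszajnLine A ∧ StronglySurjective A) :=
  ⟨exists_forcing, fun _ _ _ _ _ _ hi h => exists_orders hi h⟩

end Pool.Agent.Results.MP_5db220_lc.Coexistence
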